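import Pool.Agent.Helper38.TH.GoalsA

/-!
# Packet TH-T_PRTB (the primes in `V`)
-/

set_option autoImplicit false

namespace Pool.Agent.Helper66.TH

open Finset Pool.Agent.Helper17.PP Pool.Agent.Helper17.PP0 Pool.Agent.Helper17.PP2
  Pool.Agent.Helper11.M3 Pool.Agent.Helper38.TH

lemma lg_large (n : ℕ) (X : ℝ) (hX : (2 : ℝ) ^ n ≤ X) : n ≤ lg X := by
  unfold lg
  have h1 : 2 ^ n ≤ ⌊X⌋₊ := by
    apply Nat.le_floor
    push_cast
    exact hX
  exact Nat.le_log_of_pow_le (by norm_num) h1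

lemma mdef (T₀ L : ℕ) (hT : 1 ≤ T₀) (x : ℕ) : L ≤ T₀ * x ↔ (L + T₀ - 1) / T₀ ≤ x := by
  rw [Nat.div_le_iff_le_mul_add_pred (by omega)]
  omega

lemma sle (T₀ L : ℕ) (hT : 1 ≤ T₀) (hL : T₀ ^ 2 ≤ L) : Nat.sqrt L ≤ (L + T₀ - 1) / T₀ := by
  by_contra h
  push Not at h
  have h1 : T₀ ≤ Nat.sqrt L := by
    rw [Nat.le_sqrt]
    nlinarith
  have h2 := (mdef T₀ L hT ((L + T₀ - 1) / T₀)).mpr le_rfl
  have h3 := Nat.sqrt_le L
  nlinarith

theorem t_prtb : T_PRTB := by
  classical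
  intro hBLK hPTW hMNB p _ B B₀ k U Λ C _ _ _ _ _ _ _ _ _ _ _ S ψ Lk Cs M κ g K hyp V T₀ r₀ hT₀
    ε hε
  obtain ⟨X₁, hX₁⟩ := hBLK p B B₀ k U Λ C S ψ Lk Cs M κ g K hyp ε hε
  refine ⟨max X₁ (2 ^ (T₀ ^ 2)), fun X hX P hP ↦ ?_⟩
  have hX1 : X₁ ≤ X := le_trans (le_max_left _ _) hX
  have hX2 : (2 : ℝ) ^ (T₀ ^ 2) ≤ X := le_trans (le_max_right _ _) hX
  have hL := lg_large (T₀ ^ 2) X hX2
  have hW : WtG S (fun _ ↦ False) (fun _ ↦ (1 : ℝ)) :=
    ⟨fun _ ↦ zero_le_one, fun _ ↦ le_rfl, fun _ _ _ _ ↦ rfl⟩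
  have h1 := hX₁ X hX1 (fun _ ↦ False) (fun _ ↦ 1) V hW (fun q _ h ↦ h) P hP
  simp only [one_mul] at h1
  have hQ1 : (1 : ℝ) ≤ Fintype.card k := by
    exact_mod_cast Fintype.card_pos
  have hQ0 : (0 : ℝ) < Fintype.card k := by linarith
  have hq0 : (0 : ℝ) ≤ 1 / Fintype.card k := by positivity
  have hq1 : (1 : ℝ) / Fintype.card k ≤ 1 := by
    rw [div_le_one hQ0]
    exact hQ1
  refine h1.trans ?_
  refine add_le_add ?_ le_rfl
  refine mul_le_mul_of_nonneg_left ?_ (by positivity)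
  -- pointwise bound
  have key : ∀ b ∈ P.powerset.filter (fun b ↦ S.Fam b),
      (∑ q ∈ b with (S.Wt (2 * K * (K + 1)) b q ∧ Nat.sqrt (lg X) ≤ S.bl q ∧ V q),
        ((Fintype.card k : ℝ) - 1) *
          (1 / Fintype.card k : ℝ) ^ (S.rt (2 * K * (K + 1)) b q).card) ≤
      Fintype.card k * ((1 / Fintype.card k : ℝ) ^ r₀ +
        if ExX S V T₀ r₀ (lg X) b then 1 else 0) := by
    intro b hb
    rw [mem_filter, mem_powerset] at hb
    have hbl : ∀ q ∈ b, S.bl q ≤ th (2 * K * (K + 1)) (Nat.sqrt (lg X)) :=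
      fun q hq ↦ hP q (hb.1 hq)
    have hnn : ∀ q ∈ b, 0 ≤ ((Fintype.card k : ℝ) - 1) *
          (1 / Fintype.card k : ℝ) ^ (S.rt (2 * K * (K + 1)) b q).card := by
      intro q _
      exact mul_nonneg (by linarith) (pow_nonneg hq0 _)
    by_cases hE : ExX S V T₀ r₀ (lg X) b
    · rw [if_pos hE]
      have h2 := hMNB p B B₀ k U Λ C S (2 * K * (K + 1)) (Nat.sqrt (lg X)) b hbl
      refine le_trans (le_trans ?_ h2) ?_
      · apply Finset.sum_le_sum_of_subset_of_nonneg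
        · intro q hq
          rw [mem_filter] at hq ⊢
          exact ⟨hq.1, hq.2.1, hq.2.2.1⟩
        · intro q hq _
          exact hnn q (mem_filter.mp hq).1
      · have h3 : (0 : ℝ) ≤ (1 / Fintype.card k : ℝ) ^ r₀ := pow_nonneg hq0 _
        nlinarith
    · rw [if_neg hE, add_zero]
      unfold ExX at hE
      push Not at hE
      obtain ⟨hE1, hE2⟩ := hE
      have h2 := hPTW p B B₀ k U Λ C S (2 * K * (K + 1)) (Nat.sqrt (lg X))
        ((lg X + T₀ - 1) / T₀) b hbl (sle T₀ (lg X) hT₀ hL)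
      refine le_trans (le_trans ?_ h2) ?_
      · apply Finset.sum_le_sum_of_subset_of_nonneg
        · intro q hq
          rw [mem_filter] at hq ⊢
          refine ⟨hq.1, hq.2.1, hq.2.2.1, ?_⟩
          by_contra hlt
          push Not at hlt
          have h3 := (mdef T₀ (lg X) hT₀ (S.bl q)).mpr hlt
          have h4 := hE1 q hq.1 hq.2.2.2
          omega
        · intro q hq _
          exact hnn q (mem_filter.mp hq).1
      · refine mul_le_mul_of_nonneg_left ?_ hQ0.le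
        apply pow_le_pow_of_le_one hq0 hq1
        refine hE2.trans (le_of_eq ?_)
        congr 1
        apply Finset.filter_congr
        intro q _
        rw [mdef T₀ (lg X) hT₀ (S.bl q)]
  calc ∑ b ∈ P.powerset with S.Fam b,
      (∑ q ∈ b with (S.Wt (2 * K * (K + 1)) b q ∧ Nat.sqrt (lg X) ≤ S.bl q ∧ V q),
        ((Fintype.card k : ℝ) - 1) *
          (1 / Fintype.card k : ℝ) ^ (S.rt (2 * K * (K + 1)) b q).card) *
        Real.exp (-(S.nm b / X))
      ≤ ∑ b ∈ P.powerset with S.Fam b, (Fintype.card k * ((1 / Fintype.card k : ℝ) ^ r₀ +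
        if ExX S V T₀ r₀ (lg X) b then 1 else 0)) * Real.exp (-(S.nm b / X)) := by
        apply Finset.sum_le_sum
        intro b hb
        exact mul_le_mul_of_nonneg_right (key b hb) (Real.exp_pos _).le
    _ = _ := by
        rw [← Finset.filter_filter, Finset.sum_filter (s := P.powerset.filter (fun b ↦ S.Fam b)),
          Finset.mul_sum, ← Finset.sum_add_distrib, Finset.mul_sum]
        apply Finset.sum_congr rfl
        intro b _
        split_ifs <;> ring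

end Pool.Agent.Helper66.TH
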